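import Pool.Agent.Lib.MP_154526_nt.Low.Ideal

/-!
# The regularised double shuffle relations leave exactly `D_p` dimensions in weight `p`

Definitions: `Pool/Agent/Lib/MP_154526_nt/Top/Answer.lean` (namespace `MP154526.Bound`: words,
shuffle, stuffle, regularisation, `H0 p`, the regularised double shuffle elements `RDS p`, the
sequence `D`), `Pool/Agent/Lib/MP_154526_nt/Top/Plan.lean` (`expand`) and
`Pool/Agent/Lib/MP_154526_nt/Low/Defs.lean` (`toY`, `zs`, `zeta`, `Zw`, `Z`).

`R_p = Submodule.span ℚ (RDS p)` is the literal `ℚ`-linear span of the regularised double shuffle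
elements of weight `p` (not the ideal generated by them).
-/

set_option autoImplicit false

namespace Pool.Agent.Results.MP_154526_nt.FormalDimension

open MP154526.Bound MP154526.Top MP154526.Low

/-- For every weight `p` the words in `xy` and `xyy` of length `p` are a basis of `ℌ⁰_p` modulo the
span `R_p` of the regularised double shuffle elements of weight `p`, so that `R_p` has codimension
exactly `D_p` in `ℌ⁰_p`; hence Q1 holds in weight `p` if and only if `dim 𝒵_p = D_p`. -/
theorem result (p : ℕ) :
    H0 p = Submodule.span ℚ (RDS p) ⊔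
      Submodule.span ℚ {z | ∃ w, (expand w).length = p ∧ z = wd (expand w)} ∧
    (LinearIndependent ℚ fun w : {w : List Bool // (expand w).length = p} =>
      (Submodule.Quotient.mk (wd (expand w.1)) : H ⧸ Submodule.span ℚ (RDS p))) ∧
    Module.rank ℚ (H0 p ⧸ (Submodule.span ℚ (RDS p)).comap (H0 p).subtype) = D p ∧
    ((∀ h ∈ H0 p, Z h = 0 → h ∈ Submodule.span ℚ (RDS p)) ↔
      Module.rank ℚ (Submodule.map Z (H0 p)) = D p) := by
  obtain ⟨-, h2, h3, h4, -, h6, -, -⟩ := asmStatement p
  exact ⟨h3, h4, h2, h6⟩

end Pool.Agent.Results.MP_154526_nt.FormalDimension
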