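import Pool.Agent.Lib.MP_154526_nt.Low.Defs
import Pool.Agent.Lib.MP_154526_nt.W2.Asm

/-!
# Few double shuffle relations imply all double shuffle relations

Definitions: `Pool/Agent/Lib/MP_154526_nt/Top/Answer.lean` (namespace `MP154526.Bound`: words,
shuffle, stuffle, regularisation, `H0 p`, the regularised double shuffle elements `RDS p`),
`Pool/Agent/Lib/MP_154526_nt/Hof/Defs.lean` (`DS1`, `I`),
`Pool/Agent/Lib/MP_154526_nt/W2/Spec.lean` (`RDS2`, `I2`) and
`Pool/Agent/Lib/MP_154526_nt/Low/Defs.lean` (`toY`, `zs`, `zeta`, `Zw`, `Z`).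

`DS1 p` is the set of the elements `z_k ⧢ w - z_k * w` of weight `p` (`k ≥ 1`, `w` a word of `ℌ⁰`):
for `k ≥ 2` the finite double shuffle relations with one factor of depth one, for `k = 1` Hoffman's
relation.  `RDS2 p` is the set of the regularised double shuffle elements
`reg(w₁ ⧢ w₀ - w₁ * w₀)` of weight `p` in which `w₁` has weight at most two (`w₁ = y, xy, yy`).
`I p` and `I2 p` are the weight `p` parts of the ideals of `(ℌ⁰, ⧢)` which they generate, and
`Submodule.span ℚ (RDS p)` is the literal `ℚ`-linear span of all regularised double shuffle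
elements of weight `p`.
-/

set_option autoImplicit false

namespace Pool.Agent.Results.MP_154526_nt.HoffmanConjecture

open MP154526.Bound MP154526.Low MP154526.Hof

open MP154526.W2 (RDS2 I2 asmEnd2)

universe u

/-- (1) The ideal generated by the elements `z_k ⧢ w - z_k * w` (`k ≥ 1`, `w` a word of `ℌ⁰`) and
the ideal generated by the regularised double shuffle elements with `w₁ = y, xy, yy` are both, in
every weight, the span of all regularised double shuffle elements.
(2) Every `ℚ`-linear map from `ℌ` to a commutative `ℚ`-algebra which is multiplicative for `⧢` on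
`ℌ⁰` and kills the elements of one of the two families kills all regularised double shuffle
elements.
(3) Q1 holds in weight `p` if and only if every element of weight `p` of the kernel of `Z` lies in
the second ideal. -/
theorem result :
    (∀ p, I p = Submodule.span ℚ (RDS p) ∧ I2 p = Submodule.span ℚ (RDS p)) ∧
    (∀ (A : Type u) [CommRing A] [Algebra ℚ A] (L : H →ₗ[ℚ] A),
      (∀ a ∈ H0all, ∀ b ∈ H0all, L (shuffle a b) = L a * L b) →
        (∀ p, ∀ r ∈ DS1 p, L r = 0) ∨ (∀ p, ∀ r ∈ RDS2 p, L r = 0) →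
          ∀ p, ∀ r ∈ RDS p, L r = 0) ∧
    ∀ p, (∀ h ∈ H0 p, Z h = 0 → h ∈ Submodule.span ℚ (RDS p)) ↔
      ∀ h ∈ H0 p, Z h = 0 → h ∈ I2 p := by
  have key : ∀ (A : Type u) [CommRing A] [Algebra ℚ A] (L : H →ₗ[ℚ] A),
      (∀ a ∈ H0all, ∀ b ∈ H0all, L (shuffle a b) = L a * L b) → ∀ (S : ℕ → Set H),
        (∀ q, ∀ r ∈ S q, r ∈ H0 q) → (∀ q, ∀ r ∈ S q, L r = 0) → ∀ p,
          Submodule.span ℚ {z | ∃ q r h, q ≤ p ∧ r ∈ S q ∧ h ∈ H0 (p - q) ∧ z = shuffle r h} ≤
            LinearMap.ker L := by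
    intro A _ _ L hL S hS h0 p
    rw [Submodule.span_le]
    rintro z ⟨q, r, h, hq, hr, hh, rfl⟩
    have e : ∀ n, ∀ x ∈ H0 n, x ∈ H0all := by
      intro n x hx
      refine Submodule.span_mono ?_ hx
      rintro h ⟨w, hw, _, rfl⟩
      exact ⟨w, hw, rfl⟩
    show L (shuffle r h) = 0
    rw [hL r (e q r (hS q r hr)) h (e _ h hh), h0 q r hr, zero_mul]
  refine ⟨fun p => ⟨asmEnd p, asmEnd2 p⟩, ?_, fun p => by rw [asmEnd2 p]⟩
  intro A _ _ L hL h1 p r hr
  have hr' : r ∈ Submodule.span ℚ (RDS p) := Submodule.subset_span hr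
  rcases h1 with h1 | h1
  · rw [← asmEnd p] at hr'
    exact key A L hL DS1 specDsh h1 p hr'
  · rw [← asmEnd2 p] at hr'
    exact key A L hL RDS2 (fun q r hr => hr.1) h1 p hr'

end Pool.Agent.Results.MP_154526_nt.HoffmanConjecture
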