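import Pool.Agent.Lib.MP_154526_nt.Mot.All

/-!
# The relations of motivic multiple zeta values are the regularised double shuffle relations

Definitions: `Pool/Agent/Lib/MP_154526_nt/Top/Answer.lean` (namespace `MP154526.Bound`: words,
shuffle, stuffle, regularisation, `H0 p`, the regularised double shuffle elements `RDS p`),
`Pool/Agent/Lib/MP_154526_nt/Low/Defs.lean` (`toY`, `zs`, `zeta`, `Zw`, `Z`) and
`Pool/Agent/Lib/MP_154526_nt/Mot/Defs.lean` (the coaction `coact`, `IsPer`, `Motivic`, `Weak`).

A relation is motivic if it lies in a graded subspace of the kernel of the (unique) regularised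
period map which is stable under the coaction of Goncharov and Brown.
-/

set_option autoImplicit false

namespace Pool.Agent.Results.MP_154526_nt.MotivicSpan

open MP154526.Bound MP154526.Low MP154526.Mot

/-- There is exactly one regularised period map `P : ℚ⟨x,y⟩ → ℝ`.  For an element `h` of `ℌ⁰_p` the
following are equivalent: `h` is a `ℚ`-linear combination of regularised double shuffle elements of
weight `p`; `h` lies in a graded subspace of the kernel of `P` which is stable under the coaction of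
Goncharov and Brown; `h` lies in a graded subspace of the kernel of `P` which is stable under the
infinitesimal coactions `D_r`, `r ≥ 3` odd. -/
theorem result :
    ∃ P : H →ₗ[ℚ] ℝ, IsPer P ∧ (∀ P', IsPer P' → P' = P) ∧
      ∀ p, ∀ h ∈ H0 p,
        (h ∈ Submodule.span ℚ (RDS p) ↔ ∃ J : Submodule ℚ H, Motivic P J ∧ h ∈ J) ∧
        (h ∈ Submodule.span ℚ (RDS p) ↔ ∃ J : Submodule ℚ H, Weak P J ∧ h ∈ J) := by
  obtain ⟨P, h1, h2, h3, -, h5, h6, h7, -, -⟩ := finAll
  refine ⟨P, h1, h2, fun p h hh => ⟨⟨fun hr => ⟨RI, h3, (h7 p h hh).2 hr⟩, ?_⟩,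
    ⟨fun hr => ⟨RI, h5 RI h3, (h7 p h hh).2 hr⟩, ?_⟩⟩⟩
  · rintro ⟨J, hJ, hhJ⟩
    exact (h7 p h hh).1 (h6 J (h5 J hJ) hhJ)
  · rintro ⟨J, hJ, hhJ⟩
    exact (h7 p h hh).1 (h6 J hJ hhJ)

end Pool.Agent.Results.MP_154526_nt.MotivicSpan
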