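import Pool.Agent.Lib.MP_154526_nt.Assoc.Asm

/-!
# Regularised double shuffle implies the pentagon equation

A group-like series, over any commutative `ℚ`-algebra, which satisfies the regularised double
shuffle relations satisfies Drinfeld's pentagon equation.  This is the converse of Furusho's theorem
(the pentagon equation implies the double shuffle relations).

Definitions: `Pool/Agent/Lib/MP_154526_nt/Top/Answer.lean` (namespace `MP154526.Bound`: words,
shuffle, stuffle, regularisation, `H0 p`, the regularised double shuffle elements `RDS p`),
`Pool/Agent/Lib/MP_154526_nt/Assoc/Spec.lean` (`sumW`, `val`, `Pentagon`, `GrpLike`) and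
`Pool/Agent/Lib/MP_446dfa_ag/sig/Defs.lean` (`Braid`, the infinitesimal braid relations in an
associative ring).

A homomorphism `L` from the shuffle algebra to `K` is the series `Φ = ∑_w L(w) w(x, -y)`; for the
homomorphism given by multiple zeta values (regularised with `L x = L y = 0`) this is the
Knizhnik-Zamolodchikov associator, in the normalisation with the differential forms `dt/t` and
`dt/(t-1)`.

Idea of the proof.  (a) Upper bound: `ℌ⁰_p` is spanned by the words in `xy`, `xyy` and by
`R_p = Submodule.span ℚ (RDS p)`.  (b) Consider the set of all real group-like series satisfying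
both the double shuffle and the pentagon equations, and the space `A_p` of their rational
relations.  It contains `R_p`.  The real Knizhnik-Zamolodchikov series is such a series, and the set
is stable under the flows of the elements of `𝔡𝔪𝔯₀ ∩ 𝔤𝔯𝔱₁`.  Comparing `Φ(x, y)` and `Φ(-x, -y)` one
finds rational elements `σ_{2k+3}` of `𝔡𝔪𝔯₀ ∩ 𝔤𝔯𝔱₁` with non-zero coefficient in depth one, and it
follows that the words in `xy`, `xyy` are linearly independent modulo `A_p`.  Hence `A_p = R_p`.
(c) The pentagon equation is equivalent to relations with rational coefficients; they are in
`A_p = R_p`.
-/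

set_option autoImplicit false

namespace Pool.Agent.Results.MP_154526_nt.ShufflePentagon

open MP154526.Bound MP154526.Assoc

/-- Let `K` be a commutative `ℚ`-algebra and `L` a homomorphism from the shuffle algebra to `K` with
`L x = L y = 0`.  If `L` kills all regularised double shuffle elements, then its series satisfies
the pentagon equation. -/
theorem result (K : Type) [CommRing K] [Algebra ℚ K] (L : H →ₗ[ℚ] K) (hL : GrpLike L)
    (hR : ∀ p, ∀ r ∈ RDS p, L r = 0) : Pentagon fun w => L (wd w) :=
  asmFinal.pentagon K L hL hR

end Pool.Agent.Results.MP_154526_nt.ShufflePentagon
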